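import Pool.Agent.helper38.TA.SpecK
import Pool.Agent.helper90.SC.GR
import Pool.Agent.helper51.SC.GRA

/-! Row ta:STG (helper92). -/

set_option autoImplicit false

open Complex MeasureTheory Set

namespace Pool.Agent.TA

/-- two functions are comparable -/
private def STG_cmp (f g : ℝ → ℝ) : Prop := ∃ C : ℝ, 1 ≤ C ∧ ∀ τ : ℝ, C⁻¹ * g τ ≤ f τ ∧ f τ ≤ C * g τ

private theorem STG_mul {f g f' g' : ℝ → ℝ} (h : STG_cmp f g) (h' : STG_cmp f' g') (hg : ∀ τ, 0 ≤ g τ)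
    (hg' : ∀ τ, 0 ≤ g' τ) : STG_cmp (fun τ => f τ * f' τ) (fun τ => g τ * g' τ) := by
  obtain ⟨C, hC, h⟩ := h
  obtain ⟨C', hC', h'⟩ := h'
  have hC0 : 0 < C := by linarith
  have hC0' : 0 < C' := by linarith
  refine ⟨C * C', one_le_mul_of_one_le_of_one_le hC hC', fun τ => ?_⟩
  obtain ⟨a, b⟩ := h τ
  obtain ⟨a', b'⟩ := h' τ
  have p1 : 0 ≤ C⁻¹ * g τ := mul_nonneg (inv_nonneg.2 hC0.le) (hg τ)
  have p2 : 0 ≤ C'⁻¹ * g' τ := mul_nonneg (inv_nonneg.2 hC0'.le) (hg' τ)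
  constructor
  · have := mul_le_mul a a' p2 (p1.trans a)
    calc (C * C')⁻¹ * (g τ * g' τ) = C⁻¹ * g τ * (C'⁻¹ * g' τ) := by
          rw [mul_inv]
          ring
      _ ≤ f τ * f' τ := this
  · have := mul_le_mul b b' (p2.trans a') (mul_nonneg hC0.le (hg τ))
    calc f τ * f' τ ≤ C * g τ * (C' * g' τ) := this
      _ = C * C' * (g τ * g' τ) := by ring

private theorem STG_div {f g f' g' : ℝ → ℝ} (h : STG_cmp f g) (h' : STG_cmp f' g') (hg : ∀ τ, 0 ≤ g τ)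
    (hg' : ∀ τ, 0 < g' τ) : STG_cmp (fun τ => f τ / f' τ) (fun τ => g τ / g' τ) := by
  obtain ⟨C, hC, h⟩ := h
  obtain ⟨C', hC', h'⟩ := h'
  have hC0 : 0 < C := by linarith
  have hC0' : 0 < C' := by linarith
  refine ⟨C * C', one_le_mul_of_one_le_of_one_le hC hC', fun τ => ?_⟩
  obtain ⟨a, b⟩ := h τ
  obtain ⟨a', b'⟩ := h' τ
  have p1 : 0 ≤ C⁻¹ * g τ := mul_nonneg (inv_nonneg.2 hC0.le) (hg τ)
  have p2 : 0 < C'⁻¹ * g' τ := mul_pos (inv_pos.2 hC0') (hg' τ)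
  have p3 : 0 < f' τ := lt_of_lt_of_le p2 a'
  have hg'' := (hg' τ).ne'
  constructor
  · rw [le_div_iff₀ p3]
    calc (C * C')⁻¹ * (g τ / g' τ) * f' τ ≤ (C * C')⁻¹ * (g τ / g' τ) * (C' * g' τ) :=
          mul_le_mul_of_nonneg_left b' (mul_nonneg (by positivity) (div_nonneg (hg τ) (hg' τ).le))
      _ = C⁻¹ * g τ := by
          field_simp
      _ ≤ f τ := a
  · rw [div_le_iff₀ p3]
    calc f τ ≤ C * g τ := b
      _ = C * C' * (g τ / g' τ) * (C'⁻¹ * g' τ) := by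
          field_simp
      _ ≤ C * C' * (g τ / g' τ) * f' τ :=
          mul_le_mul_of_nonneg_left a' (mul_nonneg (by positivity) (div_nonneg (hg τ) (hg' τ).le))

private theorem STG_rpow {f g : ℝ → ℝ} (h : STG_cmp f g) (hg : ∀ τ, 0 ≤ g τ) (x : ℝ) (hx : 0 ≤ x) :
    STG_cmp (fun τ => f τ ^ x) (fun τ => g τ ^ x) := by
  obtain ⟨C, hC, h⟩ := h
  have hC0 : 0 < C := by linarith
  refine ⟨C ^ x, Real.one_le_rpow hC hx, fun τ => ?_⟩
  obtain ⟨a, b⟩ := h τ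
  have p1 : 0 ≤ C⁻¹ * g τ := mul_nonneg (inv_nonneg.2 hC0.le) (hg τ)
  constructor
  · rw [← Real.inv_rpow hC0.le, ← Real.mul_rpow (inv_nonneg.2 hC0.le) (hg τ)]
    exact Real.rpow_le_rpow p1 a hx
  · rw [← Real.mul_rpow hC0.le (hg τ)]
    exact Real.rpow_le_rpow (p1.trans a) b hx

private theorem STG_trans {f g k : ℝ → ℝ} (h : STG_cmp f g) (h' : STG_cmp g k) : STG_cmp f k := by
  obtain ⟨C, hC, h⟩ := h
  obtain ⟨C', hC', h'⟩ := h'
  have hC0 : 0 < C := by linarith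
  refine ⟨C * C', one_le_mul_of_one_le_of_one_le hC hC', fun τ => ?_⟩
  obtain ⟨a, b⟩ := h τ
  obtain ⟨a', b'⟩ := h' τ
  constructor
  · calc (C * C')⁻¹ * k τ = C⁻¹ * (C'⁻¹ * k τ) := by
          rw [mul_inv]
          ring
      _ ≤ C⁻¹ * g τ := mul_le_mul_of_nonneg_left a' (inv_nonneg.2 hC0.le)
      _ ≤ f τ := a
  · calc f τ ≤ C * g τ := b
      _ ≤ C * (C' * k τ) := mul_le_mul_of_nonneg_left b' hC0.le
      _ = C * C' * k τ := by ring

/-- `‖σ + iτ‖` is `1 + |τ|` up to a constant -/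
private theorem STG_norm (σ : ℝ) (hσ : 0 < σ) : STG_cmp (fun τ => ‖(σ : ℂ) + τ * I‖) (fun τ => 1 + |τ|) := by
  have hre : ∀ τ : ℝ, ((σ : ℂ) + τ * I).re = σ := fun τ => by simp
  have him : ∀ τ : ℝ, ((σ : ℂ) + τ * I).im = τ := fun τ => by simp
  refine ⟨σ + 1 + 2 / σ + 2, by positivity |> fun h : 0 ≤ σ + 2 / σ + 2 => by linarith, fun τ => ?_⟩
  have h2σ : 0 < 2 / σ := by positivity
  have hup : ‖(σ : ℂ) + τ * I‖ ≤ σ + |τ| := by
    refine (norm_add_le _ _).trans ?_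
    rw [norm_mul, Complex.norm_I, mul_one, Complex.norm_real, Complex.norm_real, Real.norm_eq_abs,
      Real.norm_eq_abs, abs_of_pos hσ]
  have h1 : σ ≤ ‖(σ : ℂ) + τ * I‖ := by
    have := Complex.re_le_norm ((σ : ℂ) + τ * I)
    rwa [hre] at this
  have h2 : |τ| ≤ ‖(σ : ℂ) + τ * I‖ := by
    have := Complex.abs_im_le_norm ((σ : ℂ) + τ * I)
    rwa [him] at this
  have hτ := abs_nonneg τ
  constructor
  · have hC : 0 < σ + 1 + 2 / σ + 2 := by positivity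
    rw [inv_mul_le_iff₀ hC]
    have h3 : 1 ≤ 2 / σ * ‖(σ : ℂ) + τ * I‖ := by
      have : 2 / σ * σ = 2 := by field_simp
      have h4 := mul_le_mul_of_nonneg_left h1 h2σ.le
      linarith
    have h5 : 0 ≤ (σ + 2) * ‖(σ : ℂ) + τ * I‖ := by positivity
    nlinarith
  · refine hup.trans ?_
    have h5 : 0 ≤ (2 / σ) * (1 + |τ|) := by positivity
    nlinarith

private noncomputable def STG_B (σ τ : ℝ) : ℝ := (1 + |τ|) ^ (σ - 1 / 2) * Real.exp (-(Real.pi / 2 * |τ|))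

private theorem STG_half : STG_cmp (fun τ => ‖Complex.Gamma (((1 / 2 : ℝ) : ℂ) + τ * I)‖) (STG_B (1 / 2)) := by
  refine ⟨3, by norm_num, fun τ => ?_⟩
  have hsq : ‖Complex.Gamma (((1 / 2 : ℝ) : ℂ) + τ * I)‖ ^ 2 = Real.pi / Real.cosh (Real.pi * τ) := by
    have h := Complex.Gamma_mul_Gamma_one_sub (((1 / 2 : ℝ) : ℂ) + τ * I)
    have e1 : 1 - (((1 / 2 : ℝ) : ℂ) + τ * I) = (starRingEnd ℂ) (((1 / 2 : ℝ) : ℂ) + τ * I) := by
      rw [map_add, map_mul, Complex.conj_I, Complex.conj_ofReal, Complex.conj_ofReal]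
      push_cast
      ring
    have e2 : (Real.pi : ℂ) * (((1 / 2 : ℝ) : ℂ) + τ * I) = ((Real.pi * τ : ℝ) : ℂ) * I + Real.pi / 2 := by
      push_cast
      ring
    rw [e1, Complex.Gamma_conj, e2, Complex.sin_add_pi_div_two, Complex.cos_mul_I, ← Complex.ofReal_cosh] at h
    have h3 := congrArg norm h
    rw [norm_mul, Complex.norm_conj, norm_div, Complex.norm_real, Complex.norm_real, Real.norm_eq_abs,
      Real.norm_eq_abs, abs_of_pos Real.pi_pos, abs_of_pos (Real.cosh_pos _)] at h3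
    rw [sq]
    exact h3
  have hB : STG_B (1 / 2) τ = Real.exp (-(Real.pi / 2 * |τ|)) := by
    unfold STG_B
    rw [sub_self, Real.rpow_zero, one_mul]
  have hBsq : STG_B (1 / 2) τ ^ 2 = Real.exp (-(Real.pi * |τ|)) := by
    rw [hB, ← Real.exp_nat_mul]
    congr 1
    push_cast
    ring
  have habs : |Real.pi * τ| = Real.pi * |τ| := by
    rw [abs_mul, abs_of_pos Real.pi_pos]
  have hc1 : Real.cosh (Real.pi * τ) ≤ Real.exp (Real.pi * |τ|) := by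
    rw [← habs, ← Real.cosh_abs, Real.cosh_eq]
    have : Real.exp (-|Real.pi * τ|) ≤ Real.exp |Real.pi * τ| :=
      Real.exp_le_exp.2 (by linarith [abs_nonneg (Real.pi * τ)])
    linarith
  have hc2 : Real.exp (Real.pi * |τ|) / 2 ≤ Real.cosh (Real.pi * τ) := by
    rw [← habs, ← Real.cosh_abs (Real.pi * τ), Real.cosh_eq]
    have := Real.exp_pos (-|Real.pi * τ|)
    linarith
  have hc0 := Real.cosh_pos (Real.pi * τ)
  have hB0 : 0 ≤ STG_B (1 / 2) τ := by rw [hB]; exact (Real.exp_pos _).le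
  have hG0 := norm_nonneg (Complex.Gamma (((1 / 2 : ℝ) : ℂ) + τ * I))
  have hE : Real.exp (-(Real.pi * |τ|)) * Real.exp (Real.pi * |τ|) = 1 := by
    rw [← Real.exp_add, neg_add_cancel, Real.exp_zero]
  have hE0 := Real.exp_pos (-(Real.pi * |τ|))
  have hE1 := Real.exp_pos (Real.pi * |τ|)
  have hpi3 := Real.pi_gt_three
  have hpi4 := Real.pi_lt_four
  constructor
  · refine le_of_sq_le_sq ?_ hG0
    rw [mul_pow, hBsq, hsq, le_div_iff₀ hc0]
    calc (3 : ℝ)⁻¹ ^ 2 * Real.exp (-(Real.pi * |τ|)) * Real.cosh (Real.pi * τ) ≤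
        (3 : ℝ)⁻¹ ^ 2 * Real.exp (-(Real.pi * |τ|)) * Real.exp (Real.pi * |τ|) :=
          mul_le_mul_of_nonneg_left hc1 (by positivity)
      _ = (3 : ℝ)⁻¹ ^ 2 := by rw [mul_assoc, hE, mul_one]
      _ ≤ Real.pi := by
        have : (3 : ℝ)⁻¹ ^ 2 ≤ 1 := by norm_num
        linarith
  · refine le_of_sq_le_sq ?_ (by positivity)
    rw [mul_pow, hBsq, hsq, div_le_iff₀ hc0]
    calc Real.pi ≤ 3 ^ 2 * (1 / 2) := by linarith
      _ = 3 ^ 2 * (Real.exp (-(Real.pi * |τ|)) * (Real.exp (Real.pi * |τ|) / 2)) := by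
        linear_combination (-(9 / 2 : ℝ)) * hE
      _ ≤ 3 ^ 2 * (Real.exp (-(Real.pi * |τ|)) * Real.cosh (Real.pi * τ)) := by
        refine mul_le_mul_of_nonneg_left (mul_le_mul_of_nonneg_left hc2 hE0.le) (by norm_num)
      _ = 3 ^ 2 * Real.exp (-(Real.pi * |τ|)) * Real.cosh (Real.pi * τ) := by ring

private theorem STG_Bpos (σ τ : ℝ) : 0 < STG_B σ τ := by
  unfold STG_B
  have := abs_nonneg τ
  positivity

/-- one step up -/
private theorem STG_up (σ h : ℝ) (hσ : 1 / 2 ≤ σ) (h0 : 0 ≤ h) (h1 : h ≤ 1)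
    (H : STG_cmp (fun τ => ‖Complex.Gamma ((σ : ℂ) + τ * I)‖) (STG_B σ)) :
    STG_cmp (fun τ => ‖Complex.Gamma (((σ + h : ℝ) : ℂ) + τ * I)‖) (STG_B (σ + h)) := by
  obtain ⟨C, hC, hGR⟩ := Pool.Agent.SC.GR Pool.Agent.SC.GRA
  have hC0 : 0 < C := by linarith
  have hn := STG_norm σ (by linarith)
  have hn2 := STG_rpow hn (fun τ => by positivity) h h0
  have hm := STG_mul hn2 H (fun τ => by positivity) (fun τ => (STG_Bpos σ τ).le)
  have hstep : STG_cmp (fun τ => ‖Complex.Gamma (((σ + h : ℝ) : ℂ) + τ * I)‖)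
      (fun τ => ‖(σ : ℂ) + τ * I‖ ^ h * ‖Complex.Gamma ((σ : ℂ) + τ * I)‖) := by
    refine ⟨C, hC, fun τ => ?_⟩
    have h3 := hGR ((σ : ℂ) + τ * I) h (by simp; linarith) h0 h1
    have e : ((σ + h : ℝ) : ℂ) + τ * I = (σ : ℂ) + τ * I + h := by
      push_cast
      ring
    show C⁻¹ * (‖(σ : ℂ) + τ * I‖ ^ h * ‖Complex.Gamma ((σ : ℂ) + τ * I)‖) ≤
        ‖Complex.Gamma (((σ + h : ℝ) : ℂ) + τ * I)‖ ∧
      ‖Complex.Gamma (((σ + h : ℝ) : ℂ) + τ * I)‖ ≤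
        C * (‖(σ : ℂ) + τ * I‖ ^ h * ‖Complex.Gamma ((σ : ℂ) + τ * I)‖)
    rw [e, ← mul_assoc, ← mul_assoc]
    exact h3
  refine STG_trans hstep (STG_trans hm ⟨1, le_rfl, fun τ => ?_⟩)
  have hpos : 0 < 1 + |τ| := by positivity
  have e : (1 + |τ|) ^ h * STG_B σ τ = STG_B (σ + h) τ := by
    unfold STG_B
    rw [← mul_assoc, ← Real.rpow_add hpos]
    congr 2
    ring
  show 1⁻¹ * STG_B (σ + h) τ ≤ (1 + |τ|) ^ h * STG_B σ τ ∧ (1 + |τ|) ^ h * STG_B σ τ ≤ 1 * STG_B (σ + h) τ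
  rw [e, inv_one, one_mul]
  exact ⟨le_rfl, le_rfl⟩

private theorem STG_nat (n : ℕ) :
    STG_cmp (fun τ => ‖Complex.Gamma (((1 / 2 + n : ℝ) : ℂ) + τ * I)‖) (STG_B (1 / 2 + n)) := by
  induction n with
  | zero =>
    have := STG_half
    simpa using this
  | succ n ih =>
    have := STG_up (1 / 2 + n) 1 (by have : (0 : ℝ) ≤ n := Nat.cast_nonneg n
                                     linarith) zero_le_one le_rfl ih
    have e : (1 / 2 + ((n + 1 : ℕ) : ℝ) : ℝ) = 1 / 2 + (n : ℝ) + 1 := by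
      push_cast
      ring
    rw [e]
    exact this

private theorem STG_big (σ : ℝ) (hσ : 1 / 2 ≤ σ) :
    STG_cmp (fun τ => ‖Complex.Gamma ((σ : ℂ) + τ * I)‖) (STG_B σ) := by
  have h1 : 0 ≤ σ - 1 / 2 := by linarith
  have h2 := Nat.floor_le h1
  have h3 := Nat.lt_floor_add_one (σ - 1 / 2)
  have h4 := STG_up (1 / 2 + (⌊σ - 1 / 2⌋₊ : ℝ)) (σ - 1 / 2 - ⌊σ - 1 / 2⌋₊)
    (by have : (0 : ℝ) ≤ (⌊σ - 1 / 2⌋₊ : ℝ) := Nat.cast_nonneg _
        linarith) (by linarith) (by linarith) (STG_nat _)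
  have e : (1 / 2 + (⌊σ - 1 / 2⌋₊ : ℝ) + (σ - 1 / 2 - ⌊σ - 1 / 2⌋₊) : ℝ) = σ := by ring
  rw [e] at h4
  exact h4

private theorem STG_all (σ : ℝ) (hσ : 0 < σ) :
    STG_cmp (fun τ => ‖Complex.Gamma ((σ : ℂ) + τ * I)‖) (STG_B σ) := by
  rcases le_or_gt (1 / 2) σ with h | h
  · exact STG_big σ h
  · have h1 := STG_big (σ + 1) (by linarith)
    have h2 := STG_div h1 (STG_norm σ hσ) (fun τ => (STG_Bpos _ τ).le) (fun τ => by positivity)
    have e1 : (fun τ : ℝ => ‖Complex.Gamma (((σ + 1 : ℝ) : ℂ) + τ * I)‖ / ‖(σ : ℂ) + τ * I‖) =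
        fun τ : ℝ => ‖Complex.Gamma ((σ : ℂ) + τ * I)‖ := by
      funext τ
      have hne : (σ : ℂ) + τ * I ≠ 0 := by
        intro h0
        have := congrArg Complex.re h0
        simp at this
        linarith
      have e : ((σ + 1 : ℝ) : ℂ) + τ * I = (σ : ℂ) + τ * I + 1 := by
        push_cast
        ring
      rw [e, Complex.Gamma_add_one _ hne, norm_mul, mul_comm, mul_div_assoc,
        div_self (norm_ne_zero_iff.2 hne), mul_one]
    have e2 : (fun τ : ℝ => STG_B (σ + 1) τ / (1 + |τ|)) = STG_B σ := by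
      funext τ
      have hpos : 0 < 1 + |τ| := by positivity
      unfold STG_B
      rw [show σ + 1 - 1 / 2 = (σ - 1 / 2) + 1 by ring, Real.rpow_add hpos, Real.rpow_one]
      field_simp
    rw [e1, e2] at h2
    exact h2

theorem STG : STG_stmt := fun σ hσ => STG_all σ hσ

end Pool.Agent.TA
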